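import Pool.Agent.Q286.IX.Stm2

set_option autoImplicit false
set_option linter.unusedVariables false

/-!
# Project IX (helper286), job IX-CLSD: the class of the row files
-/

open Filter Topology Finset MeasureTheory
open scoped ComplexConjugate

namespace Pool.Agent.Q151.IX

open Pool.Agent Pool.Agent.Q286.IX Pool.Agent.Q286.TR Pool.Agent.Q286.XG

lemma hd_lc {a : ℝ} : ∀ {n : ℕ} {g : Fin n → ℝ → ℂ}, (∀ i, Y23.G.Hd a (g i)) → ∀ c : Fin n → ℂ, Y23.G.Hd a (lc g c) := by
  intro n
  induction n with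
  | zero =>
    intro g h c
    have e : lc g c = fun _ => (0 : ℂ) := by
      funext x
      simp [lc]
    rw [e]
    exact Y23.G.Hd.zero
  | succ n ih =>
    intro g h c
    have e : lc g c = fun x => (fun x => c 0 * g 0 x) x + lc (fun i => g i.succ) (fun i => c i.succ) x := by
      funext x
      simp [lc, Fin.sum_univ_succ]
    rw [e]
    exact ((h 0).smul (c 0)).add (ih (fun i => h i.succ) _)

lemma trig_lc {a : ℝ} {N n : ℕ} {g : Fin n → ℝ → ℂ} (h : ∀ i, Trig a N (g i)) (c : Fin n → ℂ) : Trig a N (lc g c) := by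
  choose b hb using h
  refine ⟨fun k => ∑ i, c i * b i k, fun x => ?_⟩
  unfold lc
  by_cases hx : |x| ≤ a
  · rw [if_pos hx]
    simp only [hb, if_pos hx]
    simp only [Finset.mul_sum, Finset.sum_mul]
    rw [Finset.sum_comm]
    exact Finset.sum_congr rfl fun k _ => Finset.sum_congr rfl fun i _ => by ring
  · rw [if_neg hx]
    simp only [hb, if_neg hx, mul_zero, Finset.sum_const_zero]

theorem clsD : S_ClsD := by
  intro c
  refine ⟨fun ha h => deg_hn ha h, fun ha h => hn_deg c ha h, ?_⟩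
  intro a ν n g ha hg d
  by_cases hν : ν = ⊤
  · refine Or.inr ⟨hν, (fd_iff c a _).2 (hd_lc (fun i => ?_) d)⟩
    rcases hg i with ⟨m, hm, -⟩ | ⟨-, h⟩
    · exact absurd (hm.symm.trans hν) (ENat.coe_ne_top m)
    · exact (fd_iff c a _).1 h
  · obtain ⟨N, rfl⟩ := ENat.ne_top_iff_exists.1 hν
    refine Or.inl ⟨N, rfl, trig_lc (fun i => ?_) d⟩
    rcases hg i with ⟨m, hm, h⟩ | ⟨h, -⟩
    · have : N = m := by exact_mod_cast hm
      rw [this]
      exact h
    · exact absurd h hν

end Pool.Agent.Q151.IX
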